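import Mathlib

namespace Pool.Agent.Results.MP_e504dd_lc.OnlyCP

open unitInterval

/-- `N` is a fuzzy negation: non-increasing with `N 0 = 1` and `N 1 = 0`. -/
structure FuzzyNegation (N : I → I) : Prop where
  anti : ∀ x y : I, x ≤ y → N y ≤ N x
  zero : N 0 = 1
  one : N 1 = 0

/-- `J` is a fuzzy implication: non-increasing in the first variable, non-decreasing in the
second one, with `J 0 0 = J 1 1 = 1` and `J 1 0 = 0`. -/
structure FuzzyImplication (J : I → I → I) : Prop where
  anti_left : ∀ x x' y : I, x ≤ x' → J x' y ≤ J x y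
  mono_right : ∀ x y y' : I, y ≤ y' → J x y ≤ J x y'
  zero_zero : J 0 0 = 1
  one_one : J 1 1 = 1
  one_zero : J 1 0 = 0

/-- The contrapositive symmetry (CP). -/
def CP (J : I → I → I) (N : I → I) : Prop := ∀ x y : I, J x y = J (N y) (N x)

/-- The left contrapositive symmetry (L-CP). -/
def LCP (J : I → I → I) (N : I → I) : Prop := ∀ x y : I, J (N x) y = J (N y) x

/-- The right contrapositive symmetry (R-CP). -/
def RCP (J : I → I → I) (N : I → I) : Prop := ∀ x y : I, J x (N y) = J y (N x)

/-- The implication `J x y = 1` if `x ≤ y`, and `0` otherwise. -/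
noncomputable def J₀ (x y : I) : I := if x ≤ y then 1 else 0

/-- The negation `N x = 1 - x ^ 2`. -/
noncomputable def N₀ (x : I) : I := σ (x * x)

theorem N₀_coe (x : I) : (N₀ x : ℝ) = 1 - (x : ℝ) * x := by
  simp [N₀]

theorem N₀_le (x y : I) : N₀ y ≤ N₀ x ↔ x ≤ y := by
  rw [← Subtype.coe_le_coe, ← Subtype.coe_le_coe, N₀_coe, N₀_coe]
  have hx := x.2.1
  have hy := y.2.1
  constructor
  · intro h
    by_contra hc
    push Not at hc
    nlinarith
  · intro h
    nlinarith

/-- There are a fuzzy implication and a fuzzy negation with (CP) but neither (L-CP) nor (R-CP). -/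
theorem result : ∃ (J : I → I → I) (N : I → I), FuzzyImplication J ∧ FuzzyNegation N ∧
    CP J N ∧ ¬ LCP J N ∧ ¬ RCP J N := by
  have key : ∀ p q : Prop, ∀ [Decidable p] [Decidable q],
      ((if p then (1 : I) else 0) = if q then 1 else 0) → (p → q) := by
    intro p q _ _ h hp
    by_contra hq
    rw [if_pos hp, if_neg hq] at h
    exact one_ne_zero h
  let a : I := ⟨1 / 2, by norm_num, by norm_num⟩
  let b : I := ⟨18 / 25, by norm_num, by norm_num⟩
  refine ⟨J₀, N₀, ⟨?_, ?_, ?_, ?_, ?_⟩, ⟨?_, ?_, ?_⟩, ?_, ?_, ?_⟩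
  · intro x x' y h
    unfold J₀
    by_cases h1 : x' ≤ y
    · rw [if_pos h1, if_pos (h.trans h1)]
    · rw [if_neg h1]
      exact bot_le
  · intro x y y' h
    unfold J₀
    by_cases h1 : x ≤ y
    · rw [if_pos h1, if_pos (h1.trans h)]
    · rw [if_neg h1]
      exact bot_le
  · simp [J₀]
  · simp [J₀]
  · unfold J₀
    rw [if_neg]
    exact not_le.2 zero_lt_one
  · intro x y h
    exact (N₀_le x y).2 h
  · apply Subtype.ext
    rw [N₀_coe]
    simp
  · apply Subtype.ext
    rw [N₀_coe]
    simp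
  · intro x y
    unfold J₀
    simp only [N₀_le]
  · intro h
    have h1 := key _ _ (h b a) (by
      rw [← Subtype.coe_le_coe, N₀_coe]
      norm_num [a, b])
    rw [← Subtype.coe_le_coe, N₀_coe] at h1
    norm_num [a, b] at h1
  · intro h
    have h1 := key _ _ (h b a) (by
      rw [← Subtype.coe_le_coe, N₀_coe]
      norm_num [a, b])
    rw [← Subtype.coe_le_coe, N₀_coe] at h1
    norm_num [a, b] at h1

end Pool.Agent.Results.MP_e504dd_lc.OnlyCP
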